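import Pool.Agent.H8.AV3.Stmts

/-!
# SUM: the numerical evaluation
-/

set_option autoImplicit false

namespace Pool.Agent.H29.AV3

/-- The inverses of the lower bounds for the orders of the groups. -/
noncomputable def gg (r : ℝ) (α β : ℕ) : ℝ :=
  if α = 0 then
    if β = 0 then 1 / ((r ^ 3 - 1) * (r ^ 3 - r) * (r ^ 3 - r ^ 2))
    else 1 / ((r ^ 2 - 1) * (r ^ 2 - r) * (r - 1) * r ^ 2) * (1 / r ^ (2 * β))
  else
    if β = 0 then 1 / ((r ^ 2 - 1) * (r ^ 2 - r) * (r - 1) * r ^ 2) * (1 / r ^ (2 * α))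
    else 1 / ((r - 1) ^ 3 * r ^ 3) * (1 / r ^ (2 * α)) * (1 / r ^ (2 * β))

theorem geo (r : ℝ) (hr : 2 ≤ r) (n : ℕ) :
    ∑ m ∈ Finset.range n, 1 / r ^ (2 * (m + 1)) ≤ 1 / (r ^ 2 - 1) := by
  have h0 : 0 < r := by linarith
  have h1 : 0 < r ^ 2 - 1 := by nlinarith
  have key : ∑ m ∈ Finset.range n, 1 / r ^ (2 * (m + 1)) + 1 / (r ^ (2 * n) * (r ^ 2 - 1)) =
      1 / (r ^ 2 - 1) := by
    induction n with
    | zero => simp
    | succ n ih =>
      rw [Finset.sum_range_succ, ← ih]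
      have h2 : r ^ (2 * (n + 1)) = r ^ (2 * n) * r ^ 2 := by ring
      have h3 : 0 < r ^ (2 * n) := by positivity
      rw [h2]
      have h4 : r ^ 2 - 1 ≠ 0 := h1.ne'
      field_simp
      ring
  have h2 : 0 < 1 / (r ^ (2 * n) * (r ^ 2 - 1)) := by positivity
  linarith

theorem geo_nonneg (r : ℝ) (hr : 2 ≤ r) (n : ℕ) :
    0 ≤ ∑ m ∈ Finset.range n, 1 / r ^ (2 * (m + 1)) := by
  have h0 : 0 < r := by linarith
  exact Finset.sum_nonneg fun i _ => by positivity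

theorem sum_gg (r : ℝ) (hr : 2 ≤ r) (n : ℕ) :
    (r - 1) * ∑ α ∈ Finset.range (n + 1), ∑ β ∈ Finset.range (n + 1), gg r α β ≤
      3 / ((r - 1) * (r ^ 2 - 1) ^ 2 * (r ^ 3 - 1)) := by
  have h0 : 0 < r := by linarith
  have h1 : 0 < r - 1 := by linarith
  have h2 : 0 < r + 1 := by linarith
  have h3 : 0 < r ^ 2 - 1 := by nlinarith
  have h4 : 0 < r ^ 3 - 1 := by nlinarith [sq_nonneg r, sq_nonneg (r - 1)]
  have h5 : 0 < r ^ 2 - r := by nlinarith
  set T := ∑ m ∈ Finset.range n, 1 / r ^ (2 * (m + 1)) with hT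
  have hT0 : 0 ≤ T := geo_nonneg r hr n
  have hT1 : T ≤ 1 / (r ^ 2 - 1) := geo r hr n
  have e0 : ∑ α ∈ Finset.range (n + 1), ∑ β ∈ Finset.range (n + 1), gg r α β =
      1 / ((r ^ 3 - 1) * (r ^ 3 - r) * (r ^ 3 - r ^ 2)) +
        2 * (1 / ((r ^ 2 - 1) * (r ^ 2 - r) * (r - 1) * r ^ 2)) * T +
        1 / ((r - 1) ^ 3 * r ^ 3) * T * T := by
    have e1 : ∀ α : ℕ, ∑ β ∈ Finset.range (n + 1), gg r (α + 1) β =
        1 / ((r ^ 2 - 1) * (r ^ 2 - r) * (r - 1) * r ^ 2) * (1 / r ^ (2 * (α + 1))) +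
          1 / ((r - 1) ^ 3 * r ^ 3) * (1 / r ^ (2 * (α + 1))) * T := by
      intro α
      rw [Finset.sum_range_succ']
      have e2 : ∀ β : ℕ, gg r (α + 1) (β + 1) =
          1 / ((r - 1) ^ 3 * r ^ 3) * (1 / r ^ (2 * (α + 1))) * (1 / r ^ (2 * (β + 1))) := by
        intro β
        simp only [gg, Nat.succ_ne_zero, if_false]
      have e3 : gg r (α + 1) 0 =
          1 / ((r ^ 2 - 1) * (r ^ 2 - r) * (r - 1) * r ^ 2) * (1 / r ^ (2 * (α + 1))) := by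
        simp only [gg, Nat.succ_ne_zero, if_false, if_true]
      rw [e3, Finset.sum_congr rfl (fun β _ => e2 β), ← Finset.mul_sum, ← hT]
      ring
    have e4 : ∑ β ∈ Finset.range (n + 1), gg r 0 β =
        1 / ((r ^ 3 - 1) * (r ^ 3 - r) * (r ^ 3 - r ^ 2)) +
        1 / ((r ^ 2 - 1) * (r ^ 2 - r) * (r - 1) * r ^ 2) * T := by
      rw [Finset.sum_range_succ']
      have e2 : ∀ β : ℕ, gg r 0 (β + 1) =
          1 / ((r ^ 2 - 1) * (r ^ 2 - r) * (r - 1) * r ^ 2) * (1 / r ^ (2 * (β + 1))) := by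
        intro β
        simp only [gg, Nat.succ_ne_zero, if_false, if_true]
      have e3 : gg r 0 0 = 1 / ((r ^ 3 - 1) * (r ^ 3 - r) * (r ^ 3 - r ^ 2)) := by
        simp only [gg, if_true]
      rw [e3, Finset.sum_congr rfl (fun β _ => e2 β), ← Finset.mul_sum, ← hT]
      ring
    rw [Finset.sum_range_succ', e4, Finset.sum_congr rfl (fun α _ => e1 α),
      Finset.sum_add_distrib, ← Finset.mul_sum, ← hT]
    have e5 : ∑ x ∈ Finset.range n, 1 / ((r - 1) ^ 3 * r ^ 3) * (1 / r ^ (2 * (x + 1))) * T =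
        1 / ((r - 1) ^ 3 * r ^ 3) * T * T := by
      rw [← Finset.sum_mul, ← Finset.mul_sum, ← hT]
    rw [e5]
    ring
  rw [e0]
  have hP1 : 0 ≤ 1 / ((r ^ 2 - 1) * (r ^ 2 - r) * (r - 1) * r ^ 2) := by positivity
  have hP2 : 0 ≤ 1 / ((r - 1) ^ 3 * r ^ 3) := by positivity
  have hTT : T * T ≤ 1 / (r ^ 2 - 1) * (1 / (r ^ 2 - 1)) :=
    mul_le_mul hT1 hT1 hT0 (by positivity)
  have m1 : 2 * (1 / ((r ^ 2 - 1) * (r ^ 2 - r) * (r - 1) * r ^ 2)) * T ≤
      2 * (1 / ((r ^ 2 - 1) * (r ^ 2 - r) * (r - 1) * r ^ 2)) * (1 / (r ^ 2 - 1)) :=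
    mul_le_mul_of_nonneg_left hT1 (by positivity)
  have m2 : 1 / ((r - 1) ^ 3 * r ^ 3) * T * T ≤
      1 / ((r - 1) ^ 3 * r ^ 3) * (1 / (r ^ 2 - 1) * (1 / (r ^ 2 - 1))) := by
    rw [mul_assoc]
    exact mul_le_mul_of_nonneg_left hTT hP2
  have m3 : (r - 1) * (1 / ((r ^ 3 - 1) * (r ^ 3 - r) * (r ^ 3 - r ^ 2)) +
        2 * (1 / ((r ^ 2 - 1) * (r ^ 2 - r) * (r - 1) * r ^ 2)) * (1 / (r ^ 2 - 1)) +
        1 / ((r - 1) ^ 3 * r ^ 3) * (1 / (r ^ 2 - 1) * (1 / (r ^ 2 - 1)))) =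
      3 / ((r - 1) * (r ^ 2 - 1) ^ 2 * (r ^ 3 - 1)) := by
    have f1 : r ^ 3 - r = r * (r ^ 2 - 1) := by ring
    have f2 : r ^ 3 - r ^ 2 = r ^ 2 * (r - 1) := by ring
    have f3 : r ^ 2 - r = r * (r - 1) := by ring
    have n1 : r ≠ 0 := h0.ne'
    have n2 : r - 1 ≠ 0 := h1.ne'
    have n3 : r ^ 2 - 1 ≠ 0 := h3.ne'
    have n4 : r ^ 3 - 1 ≠ 0 := h4.ne'
    rw [f1, f2, f3]
    field_simp
    ring
  rw [← m3]
  exact mul_le_mul_of_nonneg_left (by linarith) h1.le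

/-- The bound for one term. -/
theorem term_le (q n : ℕ) (V G : ℕ → ℕ → ℝ) (hq : 2 ≤ q)
    (hV : ∀ α β, α ≤ n → β ≤ n → 0 ≤ V α β ∧
      V α β ≤ (q : ℝ) ^ (10 * n + 10 + (2 * α + β - (n + 1)) + (α + β - (n + 1))))
    (h00 : ((q : ℝ) ^ 3 - 1) * ((q : ℝ) ^ 3 - q) * ((q : ℝ) ^ 3 - (q : ℝ) ^ 2) ≤ G 0 0)
    (h01 : ∀ m : ℕ, 1 ≤ m → ((q : ℝ) ^ 2 - 1) * ((q : ℝ) ^ 2 - q) *
      (((q : ℝ) - 1) * (q : ℝ) ^ (2 * m + 2)) ≤ G 0 m)
    (h10 : ∀ m : ℕ, 1 ≤ m → ((q : ℝ) ^ 2 - 1) * ((q : ℝ) ^ 2 - q) *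
      (((q : ℝ) - 1) * (q : ℝ) ^ (2 * m + 2)) ≤ G m 0)
    (h11 : ∀ α β : ℕ, 1 ≤ α → 1 ≤ β → ((q : ℝ) - 1) ^ 3 * (q : ℝ) ^ (2 * α + 2 * β + 3) ≤ G α β)
    (α β : ℕ) (hα : α ≤ n) (hβ : β ≤ n) :
    V α β / G α β ≤ (q : ℝ) ^ (10 * n + 10) * gg q α β + (q : ℝ) ^ (9 * n + 6) / ((q : ℝ) - 1) ^ 3 := by
  have hr : (2 : ℝ) ≤ q := by exact_mod_cast hq
  set r : ℝ := (q : ℝ) with hrdef
  have h0 : 0 < r := by linarith
  have hr1 : 1 ≤ r := by linarith
  have h1 : 0 < r - 1 := by linarith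
  have h3 : 0 < r ^ 2 - 1 := by nlinarith
  have h4 : 0 < r ^ 3 - 1 := by nlinarith [sq_nonneg r, sq_nonneg (r - 1)]
  have h5 : 0 < r ^ 2 - r := by nlinarith
  have h6 : 0 < r ^ 3 - r := by nlinarith
  have h7 : 0 < r ^ 3 - r ^ 2 := by nlinarith
  have hB : 0 ≤ r ^ (9 * n + 6) / (r - 1) ^ 3 := by positivity
  obtain ⟨hV0, hV1⟩ := hV α β hα hβ
  -- the lower bound for `G`
  have hgpos : 0 < gg r α β := by
    unfold gg
    split_ifs <;> positivity
  have hG : 1 / gg r α β ≤ G α β := by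
    unfold gg
    split_ifs with ha hb hb
    · subst ha hb
      rw [one_div_one_div]
      exact h00
    · subst ha
      have := h01 β (Nat.one_le_iff_ne_zero.2 hb)
      refine le_trans (le_of_eq ?_) this
      rw [one_div_mul_one_div, one_div_one_div]
      ring
    · subst hb
      have := h10 α (Nat.one_le_iff_ne_zero.2 ha)
      refine le_trans (le_of_eq ?_) this
      rw [one_div_mul_one_div, one_div_one_div]
      ring
    · have := h11 α β (Nat.one_le_iff_ne_zero.2 ha) (Nat.one_le_iff_ne_zero.2 hb)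
      refine le_trans (le_of_eq ?_) this
      rw [one_div_mul_one_div, one_div_mul_one_div, one_div_one_div]
      ring
  have hGpos : 0 < G α β := lt_of_lt_of_le (by positivity) hG
  have hd : V α β / G α β ≤
      r ^ (10 * n + 10 + (2 * α + β - (n + 1)) + (α + β - (n + 1))) * gg r α β := by
    rw [div_le_iff₀ hGpos]
    have : 1 ≤ gg r α β * G α β := by
      have := mul_le_mul_of_nonneg_left hG hgpos.le
      rwa [mul_one_div_cancel hgpos.ne'] at this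
    calc V α β ≤ r ^ (10 * n + 10 + (2 * α + β - (n + 1)) + (α + β - (n + 1))) := hV1
      _ = r ^ (10 * n + 10 + (2 * α + β - (n + 1)) + (α + β - (n + 1))) * 1 := (mul_one _).symm
      _ ≤ r ^ (10 * n + 10 + (2 * α + β - (n + 1)) + (α + β - (n + 1))) *
          (gg r α β * G α β) := mul_le_mul_of_nonneg_left this (by positivity)
      _ = _ := by ring
  by_cases hc : 2 * α + β ≤ n + 1
  · have e1 : 2 * α + β - (n + 1) = 0 := by omega
    have e2 : α + β - (n + 1) = 0 := by omega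
    rw [e1, e2] at hd
    simp only [add_zero] at hd
    linarith
  · rw [not_le] at hc
    have ha : α ≠ 0 := by
      rintro rfl
      omega
    have hg : gg r α β ≤ 1 / ((r - 1) ^ 3 * r ^ (2 * α + 2 * β + 3)) := by
      unfold gg
      rw [if_neg ha]
      split_ifs with hb
      · subst hb
        rw [one_div_mul_one_div]
        apply one_div_le_one_div_of_le (by positivity)
        have e3 : (r ^ 2 - 1) * (r ^ 2 - r) * (r - 1) * r ^ 2 * r ^ (2 * α) =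
            (r - 1) ^ 3 * r ^ (2 * α + 2 * 0 + 3) * (r + 1) := by ring
        rw [e3]
        have e4 : 0 ≤ (r - 1) ^ 3 * r ^ (2 * α + 2 * 0 + 3) := by positivity
        nlinarith
      · rw [one_div_mul_one_div, one_div_mul_one_div]
        apply one_div_le_one_div_of_le (by positivity)
        apply le_of_eq
        ring
    have e5 : r ^ (10 * n + 10 + (2 * α + β - (n + 1)) + (α + β - (n + 1))) * gg r α β ≤
        r ^ (9 * n + 6) / (r - 1) ^ 3 := by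
      refine (mul_le_mul_of_nonneg_left hg (by positivity)).trans ?_
      rw [mul_one_div, div_le_div_iff₀ (by positivity) (by positivity)]
      have e6 : r ^ (9 * n + 6) * ((r - 1) ^ 3 * r ^ (2 * α + 2 * β + 3)) =
          r ^ (9 * n + 6 + (2 * α + 2 * β + 3)) * (r - 1) ^ 3 := by ring
      rw [e6]
      apply mul_le_mul_of_nonneg_right _ (by positivity)
      exact pow_le_pow_right₀ hr1 (by omega)
    have e7 : 0 ≤ r ^ (10 * n + 10) * gg r α β := by positivity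
    linarith

theorem sum_thm : Pool.AV3.SUMStmt := by
  intro q n V G hq hV h00 h01 h10 h11
  have hr : (2 : ℝ) ≤ q := by exact_mod_cast hq
  have hterm := term_le q n V G hq hV h00 h01 h10 h11
  have h0 : 0 < (q : ℝ) := by linarith
  have h1 : 0 < (q : ℝ) - 1 := by linarith
  have hsum : ∑ α ∈ Finset.range (n + 1), ∑ β ∈ Finset.range (n + 1), V α β / G α β ≤
      (q : ℝ) ^ (10 * n + 10) *
        (∑ α ∈ Finset.range (n + 1), ∑ β ∈ Finset.range (n + 1), gg q α β) +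
      ((n : ℝ) + 1) ^ 2 * ((q : ℝ) ^ (9 * n + 6) / ((q : ℝ) - 1) ^ 3) := by
    calc ∑ α ∈ Finset.range (n + 1), ∑ β ∈ Finset.range (n + 1), V α β / G α β
        ≤ ∑ α ∈ Finset.range (n + 1), ∑ β ∈ Finset.range (n + 1),
          ((q : ℝ) ^ (10 * n + 10) * gg q α β + (q : ℝ) ^ (9 * n + 6) / ((q : ℝ) - 1) ^ 3) := by
          refine Finset.sum_le_sum fun α hα => Finset.sum_le_sum fun β hβ => ?_
          exact hterm α β (Nat.lt_succ_iff.1 (Finset.mem_range.1 hα))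
            (Nat.lt_succ_iff.1 (Finset.mem_range.1 hβ))
      _ = _ := by
          simp only [Finset.sum_add_distrib, ← Finset.mul_sum, Finset.sum_const,
            Finset.card_range, nsmul_eq_mul]
          push_cast
          ring
  have hgg := sum_gg (q : ℝ) hr n
  have hA : 0 ≤ (q : ℝ) ^ (2 * n + 1) * ((q : ℝ) - 1) := by positivity
  refine (mul_le_mul_of_nonneg_left hsum hA).trans ?_
  have hC : 0 ≤ (q : ℝ) ^ (12 * n + 11) := by positivity
  have h2 := mul_le_mul_of_nonneg_left hgg hC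
  have e1 : (q : ℝ) ^ (2 * n + 1) * ((q : ℝ) - 1) * ((q : ℝ) ^ (10 * n + 10) *
        (∑ α ∈ Finset.range (n + 1), ∑ β ∈ Finset.range (n + 1), gg q α β) +
      ((n : ℝ) + 1) ^ 2 * ((q : ℝ) ^ (9 * n + 6) / ((q : ℝ) - 1) ^ 3)) =
      (q : ℝ) ^ (12 * n + 11) * (((q : ℝ) - 1) *
        ∑ α ∈ Finset.range (n + 1), ∑ β ∈ Finset.range (n + 1), gg q α β) +
      ((n : ℝ) + 1) ^ 2 * (q : ℝ) ^ (11 * n + 7) / ((q : ℝ) - 1) ^ 2 := by
    have e2 : (q : ℝ) ^ (12 * n + 11) = (q : ℝ) ^ (2 * n + 1) * (q : ℝ) ^ (10 * n + 10) := by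
      rw [← pow_add]
      ring_nf
    have e3 : (q : ℝ) ^ (11 * n + 7) = (q : ℝ) ^ (2 * n + 1) * (q : ℝ) ^ (9 * n + 6) := by
      rw [← pow_add]
      ring_nf
    rw [e2, e3]
    field_simp
  rw [e1]
  linarith

end Pool.Agent.H29.AV3
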