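import Pool.Agent.H8.AV3.Stmts

/-!
# UNI: translations between two curves of height `n`
-/

set_option autoImplicit false

namespace Pool.Agent.H29.AV3

open Polynomial Pool.AVR

theorem uni_thm : Pool.AV3.UNIStmt := by
  intro F _ n f f' hf hf' η h1 h2 h3
  have hint : IsIntegral F[X] η := by
    refine ⟨(X ^ 3 + C f.1 * X ^ 2 + C f.2.1 * X + C (f.2.2 - f'.2.2) : F[X][X]), ?_, ?_⟩
    · monicity!
    · have h5 : algebraMap F[X] (RatFunc F) (f.2.2 - f'.2.2) =
          algebraMap F[X] (RatFunc F) f.2.2 - algebraMap F[X] (RatFunc F) f'.2.2 := map_sub _ _ _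
      rw [eval₂_add, eval₂_add, eval₂_add, eval₂_mul, eval₂_mul, eval₂_pow, eval₂_pow, eval₂_X,
        eval₂_C, eval₂_C, eval₂_C, h5]
      linear_combination (-1 : RatFunc F) * h3
  obtain ⟨p, hp⟩ := IsIntegrallyClosed.isIntegral_iff.1 hint
  refine ⟨p, ?_, hp.symm⟩
  have h4 : p ^ 3 = f'.2.2 - f.2.2 - f.2.1 * p - f.1 * p ^ 2 := by
    apply RatFunc.algebraMap_injective F
    simp only [map_sub, map_mul, map_pow, hp]
    linear_combination (-1 : RatFunc F) * h3
  by_contra hd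
  rw [not_le] at hd
  obtain ⟨ha, hb, hc⟩ := hf
  obtain ⟨ha', hb', hc'⟩ := hf'
  have e1 : (f'.2.2 - f.2.2).natDegree ≤ 6 * n :=
    (natDegree_sub_le _ _).trans (max_le hc' hc)
  have e2 : (f.2.1 * p).natDegree ≤ 4 * n + p.natDegree :=
    natDegree_mul_le.trans (by omega)
  have e3 : (f.1 * p ^ 2).natDegree ≤ 2 * n + 2 * p.natDegree :=
    natDegree_mul_le.trans (by rw [natDegree_pow]; omega)
  have e4 : (f'.2.2 - f.2.2 - f.2.1 * p).natDegree ≤ 3 * p.natDegree - 1 :=
    (natDegree_sub_le _ _).trans (max_le (by omega) (by omega))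
  have e5 : (f'.2.2 - f.2.2 - f.2.1 * p - f.1 * p ^ 2).natDegree ≤ 3 * p.natDegree - 1 :=
    (natDegree_sub_le _ _).trans (max_le e4 (by omega))
  rw [← h4, natDegree_pow] at e5
  omega

end Pool.Agent.H29.AV3
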